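import Mathlib

/-!
# Extremal target-pebbling configurations of a chordal graph need not be simplicial

The gem: a hub `0` joined to every vertex of the path `4 - 1 - 2 - 3`.  The target asks for two
pebbles on each end of the path.  The maximum size of an unsolvable configuration is `11`, and the
only unsolvable configurations of that size put all `11` pebbles on the vertex `1` or all of them
on the vertex `2`; neither vertex is simplicial.
-/

namespace Pool.Agent.Results.MP_294a3d_co.GemExtremal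

open Finset

/-- A pebbling step: two pebbles leave `u`, one pebble arrives at the neighbour `v`. -/
def Step {V : Type} (G : SimpleGraph V) (C C' : V → ℕ) : Prop :=
  ∃ u v, G.Adj u v ∧ 2 ≤ C u ∧ C' u = C u - 2 ∧ C' v = C v + 1 ∧
    ∀ w, w ≠ u → w ≠ v → C' w = C w

/-- `C` is `D`-solvable: finitely many steps lead to at least `D v` pebbles on every `v`. -/
def Solvable {V : Type} (G : SimpleGraph V) (D C : V → ℕ) : Prop :=
  ∃ C', Relation.ReflTransGen (Step G) C C' ∧ ∀ v, D v ≤ C' v

/-- The number of pebbles of a configuration. -/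
def size {V : Type} [Fintype V] (C : V → ℕ) : ℕ := ∑ v, C v

/-- Add one pebble at `v`. -/
def addPebble {V : Type} [DecidableEq V] (C : V → ℕ) (v : V) : V → ℕ :=
  fun w => if w = v then C w + 1 else C w

/-- `C` is `D`-maximal: unsolvable, but solvable after adding one pebble at any vertex. -/
def DMaximal {V : Type} [DecidableEq V] (G : SimpleGraph V) (D C : V → ℕ) : Prop :=
  ¬ Solvable G D C ∧ ∀ v, Solvable G D (addPebble C v)

/-- `C` is `D`-extremal: `D`-maximal of the largest size among `D`-maximal configurations. -/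
def Extremal {V : Type} [Fintype V] [DecidableEq V] (G : SimpleGraph V) (D C : V → ℕ) : Prop :=
  DMaximal G D C ∧ ∀ C', DMaximal G D C' → size C' ≤ size C

/-- `v` is simplicial: its neighbours are pairwise adjacent. -/
def Simplicial {V : Type} (G : SimpleGraph V) (v : V) : Prop :=
  ∀ a b, G.Adj v a → G.Adj v b → a ≠ b → G.Adj a b

/-- No induced cycle of length at least four. -/
def Chordal {V : Type} (G : SimpleGraph V) : Prop :=
  ∀ n, 4 ≤ n → IsEmpty (SimpleGraph.cycleGraph n ↪g G)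

/-- Adjacency of the gem. -/
def gemAdj (a b : Fin 5) : Bool :=
  [(0, 1), (0, 2), (0, 3), (0, 4), (1, 2), (1, 4), (2, 3)].any
    fun p : ℕ × ℕ => (p.1 == a.val && p.2 == b.val) || (p.1 == b.val && p.2 == a.val)

/-- The gem: hub `0`, path `4 - 1 - 2 - 3`. -/
def gem : SimpleGraph (Fin 5) where
  Adj a b := gemAdj a b = true
  symm := ⟨by decide⟩
  loopless := ⟨by decide⟩

instance : DecidableRel gem.Adj := fun a b => inferInstanceAs (Decidable (gemAdj a b = true))

/-- The target: two pebbles on each end of the path. -/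
def dem : Fin 5 → ℕ := ![0, 0, 0, 2, 2]

/-- Move sequences used to solve the configurations of size `11`. -/
def plans : List (List (Fin 5 × Fin 5)) :=
[
  [],
  [(2, 3), (2, 3)],
  [(1, 4), (1, 4)],
  [(0, 3), (0, 4)],
  [(1, 4), (2, 3)],
  [(0, 3), (0, 3)],
  [(0, 4), (0, 4)],
  [(4, 0), (0, 3)],
  [(3, 0), (0, 4)],
  [(0, 3), (1, 4), (2, 3)],
  [(0, 4), (1, 4), (2, 3)],
  [(0, 3), (0, 3), (0, 4), (0, 4)],
  [(4, 0), (4, 0), (0, 3), (2, 3)],
  [(2, 0), (2, 0), (0, 4)],
  [(3, 0), (3, 0), (0, 4), (1, 4)],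
  [(1, 0), (1, 0), (0, 3)],
  [(1, 4), (1, 4), (2, 3), (2, 3)],
  [(0, 4), (0, 4), (2, 3), (2, 3)],
  [(0, 3), (0, 3), (1, 4), (1, 4)],
  [(2, 0), (0, 4), (2, 1), (1, 4)],
  [(1, 0), (0, 3), (1, 2), (2, 3)],
  [(2, 0), (0, 4), (2, 3), (2, 3)],
  [(1, 0), (0, 3), (1, 4), (1, 4)],
  [(0, 3), (4, 0), (4, 0), (0, 3)],
  [(3, 0), (3, 0), (0, 4), (0, 4)],
  [(0, 3), (0, 4), (0, 4), (2, 3)],
  [(4, 0), (4, 0), (0, 3)],
  [(3, 0), (3, 0), (0, 4)],
  [(3, 0), (0, 4), (2, 1), (1, 4)],
  [(4, 0), (0, 3), (1, 2), (2, 3)],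
  [(2, 0), (2, 0), (0, 4), (1, 4)],
  [(1, 0), (1, 0), (0, 3), (2, 3)],
  [(2, 0), (0, 4), (1, 4), (2, 3), (2, 3)],
  [(1, 0), (0, 3), (1, 4), (1, 4), (2, 3)],
  [(2, 0), (2, 0), (0, 4), (0, 4)],
  [(1, 0), (1, 0), (0, 3), (0, 3)],
  [(0, 3), (0, 3), (0, 4), (1, 4)],
  [(2, 0), (2, 0), (0, 4), (2, 3), (2, 3)],
  [(1, 0), (1, 0), (0, 3), (1, 2), (1, 4), (2, 3)],
  [(4, 0), (0, 3), (4, 0), (4, 0), (0, 3)],
  [(3, 0), (3, 0), (3, 0), (0, 4), (0, 4)],
  [(0, 3), (2, 3)],
  [(0, 4), (1, 4)],
  [(2, 0), (2, 0), (3, 0), (3, 0), (0, 4), (0, 4)],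
  [(2, 0), (2, 0), (2, 0), (3, 0), (0, 4), (0, 4)],
  [(2, 0), (2, 0), (2, 0), (2, 0), (0, 4), (0, 4)],
  [(1, 0), (1, 0), (0, 3), (4, 0), (4, 0), (0, 3)],
  [(1, 0), (1, 0), (1, 0), (0, 3), (4, 0), (0, 3)],
  [(1, 0), (1, 0), (0, 3), (1, 4), (1, 4)],
  [(2, 0), (2, 0), (0, 4), (0, 4), (2, 3)],
  [(1, 0), (1, 0), (0, 3), (0, 3), (1, 4)],
  [(4, 0), (4, 0), (0, 3), (4, 0), (4, 0), (0, 3)],
  [(3, 0), (3, 0), (3, 0), (3, 0), (0, 4), (0, 4)],
  [(2, 0), (3, 0), (3, 0), (3, 0), (0, 4), (0, 4)],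
  [(2, 0), (2, 0), (0, 4), (2, 1), (1, 4), (2, 3)],
  [(1, 0), (4, 0), (0, 3), (4, 0), (4, 0), (0, 3)],
  [(2, 1), (1, 4), (1, 4), (2, 3), (2, 3)],
  [(1, 0), (1, 0), (1, 0), (1, 0), (0, 3), (0, 3)],
  [(1, 2), (1, 4), (1, 4), (2, 3), (2, 3)],
  [(2, 0), (2, 0), (0, 4), (0, 4), (2, 3), (2, 3)],
  [(1, 0), (1, 0), (0, 3), (0, 3), (1, 4), (1, 4)],
  [(0, 4), (2, 3)],
  [(0, 3), (1, 4)],
  [(2, 0), (2, 0), (2, 0), (2, 0), (0, 4), (0, 4), (2, 3)],
  [(4, 0), (4, 0), (0, 3), (4, 1), (1, 2), (2, 3)],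
  [(3, 0), (3, 0), (0, 4), (3, 2), (2, 1), (1, 4)],
  [(3, 0), (3, 0), (0, 4), (2, 1), (1, 4)],
  [(2, 0), (3, 0), (0, 4), (2, 1), (1, 4)],
  [(2, 0), (2, 0), (0, 4), (2, 1), (1, 4)],
  [(2, 0), (2, 0), (0, 4), (2, 1), (1, 4), (2, 3), (2, 3)],
  [(4, 0), (4, 0), (0, 3), (1, 2), (2, 3)],
  [(1, 0), (4, 0), (0, 3), (2, 3)],
  [(2, 0), (3, 0), (0, 4), (1, 4)],
  [(2, 0), (2, 0), (0, 4), (1, 4), (2, 3), (2, 3)],
  [(1, 0), (4, 0), (0, 3), (1, 2), (2, 3)],
  [(1, 0), (1, 0), (0, 3), (1, 2), (2, 3)],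
  [(1, 0), (1, 0), (0, 3), (1, 4), (1, 4), (2, 3)],
  [(1, 0), (1, 0), (1, 0), (1, 0), (0, 3), (0, 3), (1, 4)],
  [(1, 0), (1, 0), (0, 3), (1, 2), (1, 4), (1, 4), (2, 3)],
  [(2, 0), (3, 0), (3, 0), (0, 4), (0, 4)],
  [(2, 0), (2, 0), (3, 0), (0, 4), (0, 4)],
  [(2, 0), (2, 0), (2, 0), (0, 4), (0, 4)],
  [(2, 0), (2, 0), (2, 0), (0, 4), (0, 4), (2, 3)],
  [(2, 0), (2, 0), (2, 0), (0, 4), (0, 4), (2, 3), (2, 3)],
  [(2, 0), (0, 4), (2, 1), (1, 4), (2, 3), (2, 3)],
  [(1, 0), (0, 3), (4, 0), (4, 0), (0, 3)],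
  [(1, 0), (1, 0), (0, 3), (4, 0), (0, 3)],
  [(1, 0), (1, 0), (1, 0), (0, 3), (0, 3)],
  [(1, 0), (1, 0), (1, 0), (0, 3), (0, 3), (1, 4)],
  [(1, 0), (0, 3), (1, 2), (1, 4), (1, 4), (2, 3)],
  [(1, 0), (1, 0), (1, 0), (0, 3), (0, 3), (1, 4), (1, 4)],
  [(2, 0), (3, 0), (0, 4), (0, 4)],
  [(0, 4), (2, 1), (1, 4), (2, 3), (2, 3)],
  [(1, 0), (0, 3), (4, 0), (0, 3)],
  [(0, 4), (1, 4), (2, 3), (2, 3)],
  [(0, 3), (1, 4), (1, 4), (2, 3)],
  [(0, 3), (1, 2), (1, 4), (1, 4), (2, 3)],
  [(0, 3), (0, 4), (1, 4), (2, 3)],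
  [(2, 0), (2, 0), (2, 0), (2, 0), (0, 4), (0, 4), (2, 3), (2, 3)],
  [(1, 0), (1, 0), (1, 0), (1, 0), (0, 3), (0, 3), (1, 4), (1, 4)]
]

/-- One move, as a function. -/
def move (C : Fin 5 → ℕ) (u v : Fin 5) : Fin 5 → ℕ :=
  fun w => if w = u then C u - 2 else if w = v then C v + 1 else C w

/-- Run a plan and test whether it is legal and meets the target. -/
def runPlan : List (Fin 5 × Fin 5) → (Fin 5 → ℕ) → Bool
  | [], C => Nat.ble 2 (C 3) && Nat.ble 2 (C 4)
  | p :: l, C => gemAdj p.1 p.2 && Nat.ble 2 (C p.1) && runPlan l (move C p.1 p.2)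

theorem step_move (C : Fin 5 → ℕ) (u v : Fin 5) (h : gemAdj u v = true) (h2 : 2 ≤ C u) :
    Step gem C (move C u v) := by
  refine ⟨u, v, h, h2, by simp [move], ?_, ?_⟩
  · have hne : v ≠ u := by
      rintro rfl
      exact gem.loopless.irrefl _ h
    simp [move, hne]
  · intro w h1 h3
    simp [move, h1, h3]

theorem runPlan_sound (l : List (Fin 5 × Fin 5)) (C : Fin 5 → ℕ) (h : runPlan l C = true) :
    Solvable gem dem C := by
  induction l generalizing C with
  | nil =>
    simp only [runPlan, Bool.and_eq_true, Nat.ble_eq] at h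
    refine ⟨C, .refl, fun v => ?_⟩
    fin_cases v <;> simp [dem]
    · exact h.1
    · exact h.2
  | cons p l ih =>
    simp only [runPlan, Bool.and_eq_true, Nat.ble_eq] at h
    obtain ⟨⟨h1, h2⟩, h3⟩ := h
    obtain ⟨C', h4, h5⟩ := ih _ h3
    exact ⟨C', .head (step_move C _ _ h1 h2) h4, h5⟩

/-- A configuration is solved by one of the plans. -/
def solved (C : Fin 5 → ℕ) : Bool := plans.any fun l => runPlan l C

theorem solved_sound (C : Fin 5 → ℕ) (h : solved C = true) : Solvable gem dem C := by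
  obtain ⟨l, -, hl⟩ := List.any_eq_true.1 h
  exact runPlan_sound l C hl

/-- The check for one configuration of size `11`. -/
def good (c0 c1 c2 c3 c4 : ℕ) : Bool :=
  Nat.beq c1 11 || Nat.beq c2 11 || solved ![c0, c1, c2, c3, c4]

/-- The check for all configurations of size `11`. -/
def allGood : Bool :=
  (List.range 12).all fun c0 => (List.range (12 - c0)).all fun c1 =>
    (List.range (12 - c0 - c1)).all fun c2 => (List.range (12 - c0 - c1 - c2)).all fun c3 =>
      good c0 c1 c2 c3 (11 - c0 - c1 - c2 - c3)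

theorem allGood_true : allGood = true := by decide +kernel

/-- All pebbles on one vertex. -/
def pile (v : Fin 5) (n : ℕ) : Fin 5 → ℕ := fun w => if w = v then n else 0

/-- `11` pebbles on the vertex `1` or `2` and one more anywhere. -/
def pilesGood : Bool :=
  (List.finRange 5).all fun v =>
    solved (addPebble (pile 1 11) v) && solved (addPebble (pile 2 11) v)

theorem pilesGood_true : pilesGood = true := by decide +kernel

theorem size_eq (C : Fin 5 → ℕ) : size C = C 0 + C 1 + C 2 + C 3 + C 4 := by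
  simp [size, Fin.sum_univ_five]

theorem eleven (C : Fin 5 → ℕ) (h : size C = 11) :
    Solvable gem dem C ∨ C = pile 1 11 ∨ C = pile 2 11 := by
  rw [size_eq] at h
  have hA := allGood_true
  simp only [allGood, List.all_eq_true, List.mem_range] at hA
  have h0 := hA (C 0) (by omega) (C 1) (by omega) (C 2) (by omega) (C 3) (by omega)
  have e4 : 11 - C 0 - C 1 - C 2 - C 3 = C 4 := by omega
  rw [e4] at h0
  simp only [good, Bool.or_eq_true, Nat.beq_eq] at h0
  rcases h0 with (h1 | h1) | h1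
  · right; left
    funext w
    fin_cases w <;> simp [pile] <;> omega
  · right; right
    funext w
    fin_cases w <;> simp [pile] <;> omega
  · left
    have e : (![C 0, C 1, C 2, C 3, C 4] : Fin 5 → ℕ) = C := by
      funext w
      fin_cases w <;> rfl
    rw [e] at h1
    exact solved_sound C h1

/-- Solvability is monotone. -/
theorem solvable_mono {V : Type} {G : SimpleGraph V} {D C C' : V → ℕ} (h : ∀ v, C v ≤ C' v)
    (hs : Solvable G D C) : Solvable G D C' := by
  obtain ⟨E, hE, hD⟩ := hs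
  have key : ∀ A B : V → ℕ, Relation.ReflTransGen (Step G) A B → ∀ A', (∀ v, A v ≤ A' v) →
      ∃ B', Relation.ReflTransGen (Step G) A' B' ∧ ∀ v, B v ≤ B' v := by
    intro A B hAB
    induction hAB using Relation.ReflTransGen.head_induction_on with
    | refl => intro A' h'; exact ⟨A', .refl, h'⟩
    | @head A A1 hst _ ih =>
      intro A' h'
      obtain ⟨u, v, huv, h2, hu, hv, hw⟩ := hst
      have hst' : Step G A' (fun w => A' w - A w + A1 w) := by
        refine ⟨u, v, huv, ?_, ?_, ?_, ?_⟩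
        · have := h' u; omega
        · have := h' u
          show A' u - A u + A1 u = A' u - 2
          omega
        · have := h' v
          show A' v - A v + A1 v = A' v + 1
          omega
        · intro w h1 h3
          have := h' w
          have h4 := hw w h1 h3
          show A' w - A w + A1 w = A' w
          omega
      obtain ⟨B', hB', hle⟩ := ih (fun w => A' w - A w + A1 w) (fun w => by omega)
      exact ⟨B', .head hst' hB', hle⟩
  obtain ⟨B', hB', hle⟩ := key C E hE C' h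
  exact ⟨B', hB', fun v => (hD v).trans (hle v)⟩

/-- Remove one pebble. -/
theorem exists_remove (C : Fin 5 → ℕ) (h : 0 < size C) :
    ∃ (C0 : Fin 5 → ℕ) (v : Fin 5), C = addPebble C0 v ∧ size C = size C0 + 1 := by
  have : ∃ v, C v ≠ 0 := by
    by_contra hc
    push Not at hc
    simp [size, hc] at h
  obtain ⟨v, hv⟩ := this
  have e : C = addPebble (fun w => if w = v then C w - 1 else C w) v := by
    funext w
    by_cases hw : w = v
    · subst hw; simp [addPebble]; omega
    · simp [addPebble, hw]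
  refine ⟨_, v, e, ?_⟩
  rw [size_eq, size_eq]
  fin_cases v <;> simp at hv ⊢ <;> omega

theorem twelve (n : ℕ) (hn : 12 ≤ n) : ∀ C : Fin 5 → ℕ, size C = n → Solvable gem dem C := by
  induction n, hn using Nat.le_induction with
  | base =>
    intro C hC
    obtain ⟨C0, v, e, hs⟩ := exists_remove C (by omega)
    rcases eleven C0 (by omega) with h | h | h
    · refine solvable_mono (fun w => ?_) h
      rw [e]
      by_cases hw : w = v <;> simp [addPebble, hw]
    · have := pilesGood_true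
      simp only [pilesGood, List.all_eq_true, Bool.and_eq_true] at this
      rw [e, h]
      exact solved_sound _ (this v (List.mem_finRange v)).1
    · have := pilesGood_true
      simp only [pilesGood, List.all_eq_true, Bool.and_eq_true] at this
      rw [e, h]
      exact solved_sound _ (this v (List.mem_finRange v)).2
  | succ n _ ih =>
    intro C hC
    obtain ⟨C0, v, e, hs⟩ := exists_remove C (by omega)
    refine solvable_mono (fun w => ?_) (ih C0 (by omega))
    rw [e]
    by_cases hw : w = v <;> simp [addPebble, hw]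

/-- The weight with respect to which no step is profitable. -/
def pot (C : Fin 5 → ℕ) : ℕ := 2 * C 0 + 2 * C 1 + C 2 + 2 * C 3 + 4 * C 4

theorem pot_step (C C' : Fin 5 → ℕ) (h : Step gem C C') : pot C' ≤ pot C := by
  obtain ⟨u, v, huv, h2, hu, hv, hw⟩ := h
  have a0 := hw 0
  have a1 := hw 1
  have a2 := hw 2
  have a3 := hw 3
  have a4 := hw 4
  simp only [pot]
  fin_cases u <;> fin_cases v <;>
    first
    | (exact absurd huv (by decide))
    | (simp at a0 a1 a2 a3 a4 hu hv h2; omega)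

theorem pot_steps (C C' : Fin 5 → ℕ) (h : Relation.ReflTransGen (Step gem) C C') :
    pot C' ≤ pot C := by
  induction h with
  | refl => exact le_refl _
  | tail _ h ih => exact (pot_step _ _ h).trans ih

theorem pile_unsolvable : ¬ Solvable gem dem (pile 2 11) := by
  rintro ⟨C', hC', hD⟩
  have key := pot_steps _ _ hC'
  have h3 := hD 3
  have h4 := hD 4
  have e : pot (pile 2 11) = 11 := by decide
  rw [e] at key
  simp [dem] at h3 h4
  simp only [pot] at key
  omega

theorem gem_connected : gem.Connected := by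
  rw [SimpleGraph.connected_iff_exists_forall_reachable]
  refine ⟨0, fun w => ?_⟩
  by_cases hw : w = 0
  · subst hw; exact SimpleGraph.Reachable.refl _
  · apply SimpleGraph.Adj.reachable
    have : ∀ w : Fin 5, w ≠ 0 → gemAdj 0 w = true := by decide
    exact this w hw

theorem gem_chordal : Chordal gem := by
  intro n hn
  constructor
  intro f
  have hcard : n ≤ 5 := by
    have := Fintype.card_le_of_injective f f.injective
    simpa using this
  have hn' : n = 4 ∨ n = 5 := by omega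
  rcases hn' with rfl | rfl
  · have key : ∀ g : Fin 4 → Fin 5, (∀ a b, g a = g b → a = b) →
        ∃ a b, ¬ (gemAdj (g a) (g b) = true ↔ (a - b = 1 ∨ b - a = 1)) := by decide +kernel
    obtain ⟨a, b, hab⟩ := key f (fun a b h => f.injective h)
    apply hab
    have h := f.map_rel_iff (a := a) (b := b)
    rw [SimpleGraph.cycleGraph_adj] at h
    exact h
  · have key : ∀ g : Fin 5 → Fin 5, (∀ a b, g a = g b → a = b) →
        ∃ a b, ¬ (gemAdj (g a) (g b) = true ↔ (a - b = 1 ∨ b - a = 1)) := by decide +kernel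
    obtain ⟨a, b, hab⟩ := key f (fun a b h => f.injective h)
    apply hab
    have h := f.map_rel_iff (a := a) (b := b)
    rw [SimpleGraph.cycleGraph_adj] at h
    exact h

theorem not_simplicial_one : ¬ Simplicial gem 1 := by
  intro h
  exact absurd (h 2 4 (by decide) (by decide) (by decide)) (by decide)

theorem not_simplicial_two : ¬ Simplicial gem 2 := by
  intro h
  exact absurd (h 1 3 (by decide) (by decide) (by decide)) (by decide)

theorem size_pile : size (pile 2 11) = 11 := by decide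

theorem size_le (C : Fin 5 → ℕ) (h : ¬ Solvable gem dem C) : size C ≤ 11 := by
  by_contra hc
  exact h (twelve (size C) (by omega) C rfl)

theorem size_addPebble (C : Fin 5 → ℕ) (v : Fin 5) : size (addPebble C v) = size C + 1 := by
  rw [size_eq, size_eq]
  fin_cases v <;> simp [addPebble] <;> omega

/-- **Negative answer to Q1.** There are a connected chordal graph `G`, a target `D` and a
`D`-extremal configuration `C` such that every `D`-unsolvable configuration with at least as many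
pebbles as `C` has all its pebbles on a single vertex which is not simplicial (and that vertex
carries `11` pebbles). -/
theorem result :
    ∃ (G : SimpleGraph (Fin 5)) (D C : Fin 5 → ℕ),
      G.Connected ∧ Chordal G ∧ Extremal G D C ∧
      ∀ C' : Fin 5 → ℕ, ¬ Solvable G D C' → size C ≤ size C' →
        ∃ v, ¬ Simplicial G v ∧ C' v = 11 ∧ ∀ w, w ≠ v → C' w = 0 := by
  refine ⟨gem, dem, pile 2 11, gem_connected, gem_chordal, ⟨⟨pile_unsolvable, fun v => ?_⟩, ?_⟩, ?_⟩
  · exact twelve _ (by rw [size_addPebble, size_pile]) _ rfl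
  · intro C' h
    rw [size_pile]
    exact size_le C' h.1
  · intro C' h hs
    have h1 := size_le C' h
    rw [size_pile] at hs
    rcases eleven C' (by omega) with h2 | h2 | h2
    · exact absurd h2 h
    · exact ⟨1, not_simplicial_one, by rw [h2]; rfl, fun w hw => by rw [h2]; simp [pile, hw]⟩
    · exact ⟨2, not_simplicial_two, by rw [h2]; rfl, fun w hw => by rw [h2]; simp [pile, hw]⟩

end Pool.Agent.Results.MP_294a3d_co.GemExtremal
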